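import Pool.Agent.W812.RB.Stm

/-!
Project RB (helper812), part CARD: cardinalities of the new sets.
-/

set_option autoImplicit false

namespace Pool.Agent.W249.RB

open Finset
open Pool.Agent.W812.RB
open Pool.Agent.H309R2.AP3 (opK opZ opY kz sum_ge2 sum_ge3)

/-- only the first `r` places of each cell are used -/
lemma sum_block' (g : ℕ → ℕ) (A : ℕ) {q r : ℕ} (hr : r ≤ q) :
    ∑ u ∈ range (A * q), (if u % q < r then g (u / q) else 0) = r * ∑ a ∈ range A, g a := by
  rcases Nat.eq_zero_or_pos q with h0 | hq
  · subst h0
    have : r = 0 := by omega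
    subst this
    simp
  induction A with
  | zero => simp
  | succ A ih =>
    rw [add_mul, one_mul, Finset.sum_range_add, ih, sum_range_succ, mul_add]
    congr 1
    have h1 : ∀ v ∈ range q, (if (A * q + v) % q < r then g ((A * q + v) / q) else 0)
        = if v < r then g A else 0 := by
      intro v hv
      rw [mem_range] at hv
      have e1 : (A * q + v) / q = A := by
        rw [Nat.div_eq_of_lt_le]
        · omega
        · rw [add_mul, one_mul]; omega
      have e2 : (A * q + v) % q = v := by
        rw [Nat.mul_comm, Nat.mul_add_mod]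
        exact Nat.mod_eq_of_lt hv
      rw [e1, e2]
    rw [sum_congr rfl h1, ← Finset.sum_filter]
    have h2 : (range q).filter (fun v => v < r) = range r := by
      ext v
      simp only [mem_filter, mem_range]
      omega
    rw [h2]
    simp

theorem stepCard (hh : HalfStm) (hc : CardGlueStm) : StepCardStm := by
  intro G _ _ _ p _ π B F h2 hp
  have hr0 := π.hr
  have hL := π.hL
  have hP := π.hP
  have hH := π.hH
  have hr : π.r ≤ π.q := by omega
  have hq : 1 ≤ π.q := by omega
  refine ⟨?_, ?_, ?_⟩
  · intro i
    rw [nK, hc]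
    have hA : min i π.H * π.q ≤ π.H * π.q := Nat.mul_le_mul_right _ (min_le_right _ _)
    have hB : min (i - π.H) (π.H / 2) * π.q ≤ π.H / 2 * π.q :=
      Nat.mul_le_mul_right _ (min_le_right _ _)
    have hB2 : 2 * (π.H / 2 * π.q) ≤ π.H * π.q := by
      rw [← mul_assoc]; exact Nat.mul_le_mul_right _ (by omega)
    have hHq : 2 * 1 ≤ π.H * π.q := Nat.mul_le_mul hH hq
    refine le_trans ?_ (sum_ge2 (fun u => (sK π F i u).card) (p := p)
      (a := min i π.H * π.q) (s := π.P + 1) (b := min (i - π.H) (π.H / 2) * π.q) (by omega)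
      (by omega))
    rw [opK, mul_add]
    apply Nat.add_le_add
    · rw [← sum_block' (fun a => (F.K (π.t a)).card) _ hr]
      apply sum_le_sum
      intro u hu
      rw [mem_range] at hu
      have h1 : u / π.q < min i π.H := by rw [Nat.div_lt_iff_lt_mul hq]; exact hu
      split_ifs with h3
      · rw [sK, if_pos (by omega), if_pos ⟨h3, by omega⟩]
      · exact Nat.zero_le _
    · rw [← sum_block' (fun b => (F.Z (π.nu (2 * b + 1))).card) _ hr]
      apply sum_le_sum
      intro v hv
      rw [mem_range] at hv
      have h1 : v / π.q < min (i - π.H) (π.H / 2) := by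
        rw [Nat.div_lt_iff_lt_mul hq]; exact hv
      have h0 : 0 ≤ v / π.q := Nat.zero_le _
      split_ifs with h3
      · rw [sK, if_neg (by omega), if_neg (by omega), Nat.add_sub_cancel_left,
          if_pos ⟨h3, by omega, by omega⟩, (hh G _ B h2).1]
      · exact Nat.zero_le _
  · intro j hj
    rw [nZ, if_pos hj, hc]
    set m := j - π.H with hm
    have hAB : (π.H - m) * π.q + m * π.q = π.H * π.q := by
      rw [← add_mul]; congr 1; omega
    have hC : 2 * ((π.H - m) / 2 * π.q) ≤ (π.H - m) * π.q := by
      rw [← mul_assoc]; exact Nat.mul_le_mul_right _ (by omega)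
    have hHq : 2 * 1 ≤ π.H * π.q := Nat.mul_le_mul hH hq
    refine le_trans ?_ (sum_ge3 (fun u => (sZ π F m u).card) (p := p)
      (a := (π.H - m) * π.q) (s := (π.H - m) * π.q + π.e) (b := m * π.q) (s' := π.P + 1)
      (b' := (π.H - m) / 2 * π.q) (by omega) (by omega) (by omega))
    rw [opZ, mul_add, mul_add]
    apply Nat.add_le_add
    apply Nat.add_le_add
    · rw [← sum_block' (fun a => (F.K (π.t (a + m / 2))).card) _ hr]
      apply sum_le_sum
      intro u hu
      rw [mem_range] at hu
      split_ifs with h3
      · rw [sZ, if_pos hu, if_pos h3, (hh G _ B h2).2.1]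
      · exact Nat.zero_le _
    · rw [← sum_block' (fun b => (F.Z (π.nu b)).card) _ hr]
      apply sum_le_sum
      intro v hv
      rw [mem_range] at hv
      split_ifs with h3
      · rw [sZ, if_neg (by omega), if_pos (by omega), Nat.add_sub_cancel_left,
          if_pos ⟨by omega, h3⟩]
      · exact Nat.zero_le _
    · rw [← sum_block' (fun b => (F.Z (π.nu (2 * b + 1 + 2 * (m / 2)))).card) _ hr]
      apply sum_le_sum
      intro v hv
      rw [mem_range] at hv
      have h1 : v / π.q < (π.H - m) / 2 := by rw [Nat.div_lt_iff_lt_mul hq]; exact hv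
      split_ifs with h3
      · rw [sZ, if_neg (by omega), if_neg (by omega), Nat.add_sub_cancel_left, if_pos ⟨h3, h1⟩]
      · exact Nat.zero_le _
  · intro j hj
    rw [nZ, if_neg hj, hc]
    set m := j - 2 * π.H with hm
    refine le_trans ?_ (sum_ge2 (fun u => (sY π F m u).card) (p := p)
      (a := π.H * π.q) (s := π.H * π.q) (b := 0) le_rfl (by omega))
    rw [opY, ← sum_block' (fun b => if m ≤ b then (F.Z (π.nu b)).card else 0) _ hr]
    refine le_trans ?_ (Nat.le_add_right _ _)
    apply sum_le_sum
    intro u hu
    rw [mem_range] at hu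
    split_ifs with h3 h4
    · rw [sY, if_pos ⟨hu, h3, h4⟩]
    · exact Nat.zero_le _
    · exact Nat.zero_le _

end Pool.Agent.W249.RB

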